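import Pool.Agent.H45.SU.UR

/-! # [SU UC] Leading forms `c x^n`; a real flex at infinity; the main part: counts in every grid -/

set_option autoImplicit false

namespace Pool.Agent.H45.SU

open Finset Polynomial Pool.Agent.H72.ES Pool.Agent.H47.SP

theorem filter_le_one {n : ℕ} {S : Finset (Mon n → ℤ)} {Z : Finset (Mon n)}
    (h : ∀ a ∈ S, ∀ b ∈ S, (∀ m ∉ Z, a m = b m) → a = b) :
    ∀ b ∈ S, (S.filter fun a => ∀ m ∉ Z, a m = b m).card ≤ 1 := by
  intro b hb
  rw [card_le_one]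
  intro a ha a' ha'
  rw [h a (mem_filter.1 ha).1 b hb (mem_filter.1 ha).2,
    h a' (mem_filter.1 ha').1 b hb (mem_filter.1 ha').2]

theorem uz {n : ℕ} (s : ℕ) (A : Mon n → Finset ℤ) (hA : ∀ m, (A m).card ≤ s) (S : Finset MP)
    (hS : ∀ F ∈ S, InA A F) (h0 : ∀ F ∈ S, (ld n F).natDegree = 0) :
    S.card ≤ s ^ (NN n - n) := by
  classical
  obtain ⟨h1, h2⟩ := card_vec hS
  set Z : Finset (Mon n) := univ.image fun j : Fin n => (⟨Fin.last n, j.succ⟩ : Mon n) with hZ
  have hZc : Z.card = n := by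
    rw [hZ, card_image_of_injective, card_univ, Fintype.card_fin]
    intro i j h
    have h2 : (i.succ : Fin (n + 1)) = j.succ := by simpa using h
    exact Fin.succ_injective _ h2
  have h3 := fib A s hA 1 Z (S.image (vec n)) h2 (filter_le_one ?_)
  · rw [h1, hZc, card_mon, one_mul] at h3
    exact h3
  · intro a ha b hb hab
    obtain ⟨F, hF, rfl⟩ := mem_image.1 ha
    obtain ⟨G, hG, rfl⟩ := mem_image.1 hb
    have hz : ∀ G ∈ S, ∀ m : Mon n, m ∈ Z → vec n G m = 0 := by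
      intro G hG m hm
      obtain ⟨j, -, rfl⟩ := mem_image.1 hm
      have e3 : ((j.succ : Fin (n + 1)) : ℕ) = (j : ℕ) + 1 := Fin.val_succ j
      have e4 : (j : ℕ) + 1 ≤ n := j.2
      have e5 : vec n G (⟨Fin.last n, j.succ⟩ : Mon n) = arrM G (n - ((j : ℕ) + 1)) ((j : ℕ) + 1) := by
        unfold vec
        rfl
      rw [e5, ← ld_coeff G _ e4]
      apply coeff_eq_zero_of_natDegree_lt
      rw [h0 G hG]
      omega
    funext m
    by_cases hm : m ∈ Z
    · rw [hz F hF m hm, hz G hG m hm]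
    · exact hab m hm

theorem lead_ne {n : ℕ} (hn : 1 ≤ n) {F : MP} (h : (ld n F).natDegree = n) : arrM F 0 n ≠ 0 := by
  have h2 := ld_coeff (n := n) F n le_rfl
  rw [Nat.sub_self] at h2
  rw [← h2]
  intro h3
  have h4 : ld n F ≠ 0 := by
    intro h5
    rw [h5, natDegree_zero] at h
    omega
  apply h4
  rw [← leadingCoeff_eq_zero, leadingCoeff, h]
  exact h3

theorem uf {n : ℕ} (hn : 4 ≤ n) (s : ℕ) (A : Mon n → Finset ℤ) (hA : ∀ m, (A m).card ≤ s)
    (S : Finset MP) (hS : ∀ F ∈ S, InA A F)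
    (h1 : ∀ F ∈ S, (ld n F).natDegree = n ∧ Irreducible ((ld n F).map (Int.castRingHom ℚ)) ∧
      ∃ θ : ℝ, aeval θ (ld n F) = 0 ∧ aeval θ (flexP n (arrM F)) = 0) :
    S.card ≤ s ^ (NN n - (n - 1)) := by
  classical
  obtain ⟨e1, e2⟩ := card_vec hS
  have hn2 : n - 2 < n + 1 := by omega
  set Z : Finset (Mon n) :=
    univ.image fun j : Fin (n - 2 + 1) => (⟨⟨n - 2, hn2⟩, j⟩ : Mon n) with hZ
  have hZc : Z.card = n - 2 + 1 := by
    rw [hZ, card_image_of_injective, card_univ, Fintype.card_fin]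
    intro i j h
    simpa using h
  have hZm : ∀ m : Mon n, (m.1 : ℕ) ≠ n - 2 → m ∉ Z := by
    intro m hm hmZ
    obtain ⟨j, -, rfl⟩ := mem_image.1 hmZ
    exact hm rfl
  have h3 := fib A s hA 1 Z (S.image (vec n)) e2 (filter_le_one ?_)
  · rw [e1, hZc, card_mon, one_mul] at h3
    have h4 : n - 2 + 1 = n - 1 := by omega
    rwa [h4] at h3
  · intro a ha b hb hab
    obtain ⟨F, hF, rfl⟩ := mem_image.1 ha
    obtain ⟨F', hF', rfl⟩ := mem_image.1 hb
    have hagree : ∀ i j, i + j ≠ n - 2 → arrM F i j = arrM F' i j := by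
      intro i j hij
      rw [← arr_vec (hS F hF).1, ← arr_vec (hS F' hF').1]
      by_cases hle : i + j ≤ n
      · refine arr_congr hle (hab _ (hZm _ ?_))
        rw [mo_deg]
        exact hij
      · rw [arr_supp _ i j (by omega), arr_supp _ i j (by omega)]
    have hp0 : part n 0 (arrM F) = part n 0 (arrM F') := by
      unfold part
      refine sum_congr rfl fun j hj => ?_
      simp only [mem_range] at hj
      rw [hagree _ _ (by omega)]
    have hp1 : part n 1 (arrM F) = part n 1 (arrM F') := by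
      unfold part
      refine sum_congr rfl fun j hj => ?_
      simp only [mem_range] at hj
      rw [hagree _ _ (by omega)]
    obtain ⟨ha, hirr, θ, hθ, hfl⟩ := h1 F hF
    obtain ⟨_, _, θ', hθ', hfl'⟩ := h1 F' hF'
    rw [← ld_part] at hθ hθ'
    rw [← ld_leadQ] at hirr
    have hp2 := flex_determined hn (arrM F) (arrM F') (lead_ne (by omega) ha) hirr hp0 hp1 θ θ'
      hθ hθ' hfl hfl'
    have h5 : F = F' := by
      apply arrM_inj
      funext i j
      by_cases hij : i + j = n - 2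
      · have h2 : (part n 2 (arrM F)).coeff j = (part n 2 (arrM F')).coeff j := by rw [hp2]
        rw [part_coeff n 2 _ j (by omega), part_coeff n 2 _ j (by omega)] at h2
        have h3 : n - 2 - j = i := by omega
        rw [h3] at h2
        exact h2
      · exact hagree i j hij
    rw [h5]

/-- an integer zero which is large compared with the coefficients -/
def Bad (E : ℕ) (F : MP) : Prop :=
  ∃ H : ℕ, 2 ≤ H ∧ (∀ m, |F.coeff m| ≤ (H : ℤ)) ∧ ∃ P : ℤ × ℤ,
    MvPolynomial.eval ![P.1, P.2] F = 0 ∧ (H : ℤ) ^ E < max |P.1| |P.2|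

theorem Bad.mono {E E' : ℕ} {F : MP} (h : Bad E F) (hE : E' ≤ E) : Bad E' F := by
  obtain ⟨H, hH, ha, P, h0, h1⟩ := h
  refine ⟨H, hH, ha, P, h0, lt_of_le_of_lt ?_ h1⟩
  exact pow_le_pow_right₀ (by exact_mod_cast (by omega : 1 ≤ H)) hE

/-- the indices of degree at most `n - 4` -/
theorem card_low4 {n : ℕ} (hn : 4 ≤ n) :
    NN n - (univ.filter fun m : Mon n => (m.1 : ℕ) + 4 ≤ n).card ≤ 4 * n - 2 := by
  classical
  have h1 : Fintype.card (Mon n) - (univ.filter fun m : Mon n => (m.1 : ℕ) + 4 ≤ n).card =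
      (univ.filter fun m : Mon n => ¬ (m.1 : ℕ) + 4 ≤ n).card := by
    have := card_filter_add_card_filter_not (s := (univ : Finset (Mon n)))
      (fun m : Mon n => (m.1 : ℕ) + 4 ≤ n)
    rw [card_univ] at this
    omega
  rw [← card_mon n, h1]
  have h2 : (univ.filter fun m : Mon n => ¬ (m.1 : ℕ) + 4 ≤ n) ⊆
      ((univ : Finset (Fin (n + 1))).image fun j : Fin (n + 1) => (⟨Fin.last n, j⟩ : Mon n)) ∪
      ((univ : Finset (Fin (n - 1 + 1))).image fun j : Fin (n - 1 + 1) =>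
        (⟨⟨n - 1, by omega⟩, j⟩ : Mon n)) ∪
      ((univ : Finset (Fin (n - 2 + 1))).image fun j : Fin (n - 2 + 1) =>
        (⟨⟨n - 2, by omega⟩, j⟩ : Mon n)) ∪
      ((univ : Finset (Fin (n - 3 + 1))).image fun j : Fin (n - 3 + 1) =>
        (⟨⟨n - 3, by omega⟩, j⟩ : Mon n)) := by
    rintro ⟨⟨d, hd⟩, j⟩ hm
    have h3 : ¬ d + 4 ≤ n := (mem_filter.1 hm).2
    simp only [mem_union, mem_image, mem_univ, true_and]
    have h4 : d = n ∨ d = n - 1 ∨ d = n - 2 ∨ d = n - 3 := by omega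
    rcases h4 with h | h | h | h
    · subst h
      exact Or.inl (Or.inl (Or.inl ⟨j, rfl⟩))
    · subst h
      exact Or.inl (Or.inl (Or.inr ⟨j, rfl⟩))
    · subst h
      exact Or.inl (Or.inr ⟨j, rfl⟩)
    · subst h
      exact Or.inr ⟨j, rfl⟩
  refine (card_le_card h2).trans ?_
  refine (card_union_le _ _).trans ?_
  have h5 := (card_union_le (((univ : Finset (Fin (n + 1))).image fun j : Fin (n + 1) =>
      (⟨Fin.last n, j⟩ : Mon n)) ∪ ((univ : Finset (Fin (n - 1 + 1))).image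
        fun j : Fin (n - 1 + 1) => (⟨⟨n - 1, by omega⟩, j⟩ : Mon n)))
      ((univ : Finset (Fin (n - 2 + 1))).image fun j : Fin (n - 2 + 1) =>
        (⟨⟨n - 2, by omega⟩, j⟩ : Mon n)))
  have h6 := (card_union_le ((univ : Finset (Fin (n + 1))).image fun j : Fin (n + 1) =>
      (⟨Fin.last n, j⟩ : Mon n)) ((univ : Finset (Fin (n - 1 + 1))).image
        fun j : Fin (n - 1 + 1) => (⟨⟨n - 1, by omega⟩, j⟩ : Mon n)))
  have c1 : ((univ : Finset (Fin (n + 1))).image fun j : Fin (n + 1) =>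
      (⟨Fin.last n, j⟩ : Mon n)).card ≤ n + 1 := card_image_le.trans (by simp)
  have c2 : ((univ : Finset (Fin (n - 1 + 1))).image fun j : Fin (n - 1 + 1) =>
      (⟨⟨n - 1, by omega⟩, j⟩ : Mon n)).card ≤ n - 1 + 1 := card_image_le.trans (by simp)
  have c3 : ((univ : Finset (Fin (n - 2 + 1))).image fun j : Fin (n - 2 + 1) =>
      (⟨⟨n - 2, by omega⟩, j⟩ : Mon n)).card ≤ n - 2 + 1 := card_image_le.trans (by simp)
  have c4 : ((univ : Finset (Fin (n - 3 + 1))).image fun j : Fin (n - 3 + 1) =>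
      (⟨⟨n - 3, by omega⟩, j⟩ : Mon n)).card ≤ n - 3 + 1 := card_image_le.trans (by simp)
  omega

theorem um {n : ℕ} (hn : 4 ≤ n) (s : ℕ) (hs : 1 ≤ s) (A : Mon n → Finset ℤ)
    (hA : ∀ m, (A m).card ≤ s) (S : Finset MP) (hS : ∀ F ∈ S, InA A F)
    (h : ∀ F ∈ S, (ld n F).natDegree = n ∧ Irreducible ((ld n F).map (Int.castRingHom ℚ)) ∧
      (∀ θ : ℝ, aeval θ (ld n F) = 0 → aeval θ (flexP n (arrM F)) ≠ 0) ∧
      Bad (5300000 * n ^ 5) F) :
    S.card ≤ 39 * n ^ 3 * s ^ (4 * n - 2) := by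
  classical
  obtain ⟨e1, e2⟩ := card_vec hS
  set Z : Finset (Mon n) := univ.filter fun m : Mon n => (m.1 : ℕ) + 4 ≤ n with hZ
  have hZ4 := card_low4 hn
  rw [← hZ] at hZ4
  have h3 := fib A s hA (39 * n ^ 3) Z (S.image (vec n)) e2 ?_
  · rw [e1, card_mon] at h3
    exact h3.trans (Nat.mul_le_mul_left _ (Nat.pow_le_pow_right hs hZ4))
  intro b hb
  obtain ⟨F0, hF0, rfl⟩ := mem_image.1 hb
  set T := S.filter fun F => ∀ m ∉ Z, vec n F m = vec n F0 m with hT
  have hTS : ∀ F ∈ T, F ∈ S := fun F hF => (mem_filter.1 hF).1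
  have hfil : ((S.image (vec n)).filter fun a => ∀ m ∉ Z, a m = vec n F0 m).card ≤ T.card := by
    have h4 : ((S.image (vec n)).filter fun a => ∀ m ∉ Z, a m = vec n F0 m) ⊆ T.image (vec n) := by
      intro a ha
      obtain ⟨h5, h6⟩ := mem_filter.1 ha
      obtain ⟨F, hF, rfl⟩ := mem_image.1 h5
      exact mem_image_of_mem _ (mem_filter.2 ⟨hF, h6⟩)
    exact (card_le_card h4).trans card_image_le
  refine hfil.trans ?_
  have htop : ∀ F ∈ T, Top4 n (arrM F) (arrM F0) := by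
    intro F hF i j hij hij'
    rw [← arr_vec (hS F (hTS F hF)).1, ← arr_vec (hS F0 hF0).1]
    refine arr_congr (by omega) ((mem_filter.1 hF).2 _ ?_)
    intro h4
    have h5 := (mem_filter.1 h4).2
    rw [mo_deg] at h5
    omega
  have hbad : ∀ F ∈ T, ∃ (P : ℤ × ℤ) (H : ℕ), 2 ≤ H ∧ (∀ m, |F.coeff m| ≤ (H : ℤ)) ∧
      MvPolynomial.eval ![P.1, P.2] F = 0 ∧ (H : ℤ) ^ (5300000 * n ^ 5) < max |P.1| |P.2| := by
    intro F hF
    obtain ⟨H, hH, hc, P, h0, h1⟩ := (h F (hTS F hF)).2.2.2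
    exact ⟨P, H, hH, hc, h0, h1⟩
  choose! P H hH hcb h0 hl using hbad
  obtain ⟨hd0, hirr0, hfl0, -⟩ := h F0 hF0
  have ha0 := lead_ne (by omega : 1 ≤ n) hd0
  rw [← ld_leadQ] at hirr0
  have hev : ∀ F ∈ T, ev n (arrM F) (P F).1 (P F).2 = 0 := by
    intro F hF
    rw [← eval_arrM (hS F (hTS F hF)).1]
    exact h0 F hF
  have hbd : ∀ F ∈ T, ∀ i j, |arrM F i j| ≤ (H F : ℤ) := fun F hF i j => hcb F hF _
  have hinj : Set.InjOn P T := by
    intro F hF F' hF' haa
    have hF1 : F ∈ T := hF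
    have hF2 : F' ∈ T := hF'
    have key : ∀ H' : ℕ, (H' : ℤ) ^ (5300000 * n ^ 5) < max |(P F).1| |(P F).2| → 2 ≤ H' →
        (H' : ℤ) ^ (600 * n ^ 5) < max |(P F).1| |(P F).2| := by
      intro H' h1 h2
      refine lt_of_le_of_lt ?_ h1
      exact pow_le_pow_right₀ (by exact_mod_cast (by omega : 1 ≤ H'))
        (Nat.mul_le_mul_right _ (by norm_num))
    have h1 : arrM F = arrM F' := by
      refine shared_point (H := max (H F) (H F')) hn (le_max_of_le_left (hH F hF1)) (arrM F0)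
        ha0 hirr0 (arrM F) (arrM F')
        (fun i j _ => (hbd F hF1 i j).trans (by exact_mod_cast le_max_left _ _))
        (fun i j _ => (hbd F' hF2 i j).trans (by exact_mod_cast le_max_right _ _))
        (htop F hF1) (htop F' hF2)
        (fun i j hij => arrM_supp (hS F (hTS F hF1)).1 i j (by omega))
        (fun i j hij => arrM_supp (hS F' (hTS F' hF2)).1 i j (by omega)) (P F) ?_
        (hev F hF1) ?_
      · rcases max_choice (H F) (H F') with h | h
        · rw [h]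
          exact key _ (hl F hF1) (hH F hF1)
        · rw [h]
          refine key _ ?_ (hH F' hF2)
          rw [haa]
          exact hl F' hF2
      · rw [haa]
        exact hev F' hF2
    exact arrM_inj h1
  rw [← card_image_of_injOn hinj]
  refine main_total hn (arrM F0) ha0 hirr0 ?_ _ ?_
  · intro θ hθ
    rw [ld_part] at hθ
    exact hfl0 θ hθ
  · intro R hR
    obtain ⟨F, hF, rfl⟩ := mem_image.1 hR
    exact ⟨H F, hH F hF, hl F hF, arrM F, fun i j _ => hbd F hF i j, htop F hF, hev F hF⟩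

end Pool.Agent.H45.SU
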