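import Mathlib

/-! # [SU GL] Counting in grids of arbitrary finite sets: fibres and the grid lemma

`A i` are finite sets of at most `s` integers.

* `fib`: a subset of the grid `∏ A i` whose fibres over the coordinates outside `Z` have at most `k`
  elements has at most `k s^(|M| - |Z|)` elements.
* `grid`: a polynomial map `φ : ℚ^D → ℚ^M` has at most `C s^|D|` values in the grid, `C`
  independent of the sets. (For every point `a` of the grid in the image the polynomial
  `∏ i, ∏ k, (φ i - k)`, `k ≠ a i` in `A i`, vanishes at the preimages of the other points and not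
  at that of `a`: these polynomials are linearly independent, and their degree is at most
  `e |M| s`.) -/

set_option autoImplicit false

namespace Pool.Agent.H45.SU

open Finset

section fib

variable {M : Type} [Fintype M] [DecidableEq M]

theorem fib (A : M → Finset ℤ) (s : ℕ) (hA : ∀ i, (A i).card ≤ s) (k : ℕ) (Z : Finset M)
    (S : Finset (M → ℤ)) (hS : S ⊆ Fintype.piFinset A)
    (h : ∀ b ∈ S, (S.filter fun a => ∀ i ∉ Z, a i = b i).card ≤ k) :
    S.card ≤ k * s ^ (Fintype.card M - Z.card) := by
  classical
  set π : (M → ℤ) → (M → ℤ) := fun a i => if i ∈ Z then 0 else a i with hπ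
  have h1 : S.card ≤ k * (S.image π).card := by
    refine Finset.card_le_mul_card_image S _ ?_
    intro b' hb'
    obtain ⟨b, hb, rfl⟩ := mem_image.1 hb'
    refine le_trans (card_le_card ?_) (h b hb)
    intro a ha
    rw [mem_filter] at ha ⊢
    refine ⟨ha.1, fun i hi => ?_⟩
    have h2 := congrFun ha.2 i
    simp only [hπ, if_neg hi] at h2
    exact h2
  have h2 : (S.image π).card ≤ s ^ (Fintype.card M - Z.card) := by
    have h3 : S.image π ⊆ Fintype.piFinset fun i =>
        if i ∈ Z then {0} else A i := by
      intro b' hb'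
      obtain ⟨b, hb, rfl⟩ := mem_image.1 hb'
      rw [Fintype.mem_piFinset]
      intro i
      have h4 := Fintype.mem_piFinset.1 (hS hb) i
      by_cases hi : i ∈ Z
      · simp only [hπ, if_pos hi, mem_singleton]
      · simp only [hπ, if_neg hi]
        exact h4
    refine (card_le_card h3).trans ?_
    rw [Fintype.card_piFinset]
    have h5 : ∀ i : M, (if i ∈ Z then ({0} : Finset ℤ) else A i).card ≤
        if i ∈ Z then 1 else s := by
      intro i
      split_ifs with hi
      · exact (card_singleton _).le
      · exact hA i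
    refine (Finset.prod_le_prod' fun i _ => h5 i).trans (le_of_eq ?_)
    rw [Finset.prod_ite, Finset.prod_const_one, one_mul, Finset.prod_const]
    congr 1
    rw [← Finset.card_univ, ← Finset.card_sdiff_of_subset (subset_univ Z)]
    congr 1
    ext i
    simp
  exact h1.trans (Nat.mul_le_mul_left _ h2)

end fib

open MvPolynomial in
theorem grid {D M : Type} [Fintype D] [DecidableEq D] [Fintype M] [DecidableEq M]
    (φ : M → MvPolynomial D ℚ) : ∃ C : ℕ, ∀ (s : ℕ), 1 ≤ s → ∀ (A : M → Finset ℤ),
    (∀ i, (A i).card ≤ s) → ∀ (S : Finset (M → ℤ)),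
    S ⊆ Fintype.piFinset A → (∀ a ∈ S, ∃ t : D → ℚ, ∀ i, eval t (φ i) = (a i : ℚ)) →
    S.card ≤ C * s ^ Fintype.card D := by
  classical
  set e : ℕ := ∑ i, (φ i).totalDegree with he
  have hei : ∀ i, (φ i).totalDegree ≤ e := fun i =>
    single_le_sum (f := fun i => (φ i).totalDegree) (fun _ _ => Nat.zero_le _) (mem_univ i)
  set m : ℕ := Fintype.card M * e + 1 with hm
  refine ⟨m ^ Fintype.card D, fun s hs A hA S hS h => ?_⟩
  choose! t ht using h
  set d : ℕ := Fintype.card M * (s * e) with hd
  -- the polynomials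
  set P : (M → ℤ) → MvPolynomial D ℚ := fun a =>
    ∏ i : M, ∏ k ∈ (A i).erase (a i), (φ i - C (k : ℚ)) with hP
  have hdeg : ∀ a, (P a).totalDegree ≤ d := by
    intro a
    refine (totalDegree_finsetProd _ _).trans ?_
    have h1 : ∀ i ∈ (univ : Finset M), (∏ k ∈ (A i).erase (a i),
        (φ i - C (k : ℚ))).totalDegree ≤ s * e := by
      intro i _
      refine (totalDegree_finsetProd _ _).trans ?_
      refine (sum_le_card_nsmul _ _ e ?_).trans ?_
      · intro k _
        refine (totalDegree_sub _ _).trans (max_le (hei i) ?_)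
        rw [totalDegree_C]
        exact Nat.zero_le _
      · rw [smul_eq_mul]
        exact Nat.mul_le_mul_right _ ((card_erase_le).trans (hA i))
    refine (sum_le_card_nsmul _ _ _ h1).trans ?_
    rw [smul_eq_mul, card_univ]
  have hval1 : ∀ a ∈ S, eval (t a) (P a) ≠ 0 := by
    intro a ha
    rw [hP]
    simp only [map_prod]
    refine prod_ne_zero_iff.2 fun i _ => prod_ne_zero_iff.2 fun k hk => ?_
    rw [map_sub, eval_C, ht a ha i, sub_ne_zero]
    intro h1
    exact (mem_erase.1 hk).1 (by exact_mod_cast h1.symm)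
  have hval0 : ∀ a ∈ S, ∀ b ∈ S, a ≠ b → eval (t b) (P a) = 0 := by
    intro a ha b hb hab
    obtain ⟨i, hi⟩ := Function.ne_iff.1 hab
    have h1 := Fintype.mem_piFinset.1 (hS hb) i
    rw [hP]
    simp only [map_prod]
    refine prod_eq_zero (mem_univ i) (prod_eq_zero (i := b i) ?_ ?_)
    · exact mem_erase.2 ⟨hi.symm, h1⟩
    · rw [map_sub, eval_C, ht b hb i, sub_self]
  -- linear independence in a space of dimension `(d+1)^|D|`
  have hmem : ∀ a : S, P a ∈ restrictDegree D ℚ d := by
    intro a
    exact restrictTotalDegree_le_restrictDegree D ℚ d ((mem_restrictTotalDegree _ _ _).2 (hdeg a))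
  have hli : LinearIndependent ℚ (fun a : S => (⟨P a, hmem a⟩ : restrictDegree D ℚ d)) := by
    rw [Fintype.linearIndependent_iff]
    intro g hg a
    have h1 := congrArg (fun q : restrictDegree D ℚ d => eval (t a) (q : MvPolynomial D ℚ)) hg
    simp only [Submodule.coe_sum, Submodule.coe_smul, Submodule.coe_zero, map_zero, map_sum,
      smul_eval] at h1
    rw [Finset.sum_eq_single a] at h1
    · rcases mul_eq_zero.1 h1 with h2 | h2
      · exact h2
      · exact absurd h2 (hval1 a a.2)
    · intro b _ hb
      rw [hval0 b b.2 a a.2 (fun h => hb (Subtype.ext h)), mul_zero]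
    · intro h2
      exact absurd (mem_univ a) h2
  have hcard : S.card ≤ (d + 1) ^ Fintype.card D := by
    have h1 := hli.fintype_card_le_finrank
    rw [Fintype.card_coe] at h1
    refine h1.trans ?_
    have h2 : Module.finrank ℚ (restrictDegree D ℚ d) = Nat.card {f : D →₀ ℕ | ∀ a, f a ≤ d} :=
      Module.finrank_eq_nat_card_basis (basisRestrictSupport ℚ {f : D →₀ ℕ | ∀ a, f a ≤ d})
    rw [h2]
    have h3 : Function.Injective (fun (f : {f : D →₀ ℕ | ∀ a, f a ≤ d}) (i : D) =>
        (⟨f.1 i, Nat.lt_succ_of_le (f.2 i)⟩ : Fin (d + 1))) := by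
      intro f g hfg
      refine Subtype.ext (Finsupp.ext fun i => ?_)
      have h4 := congrFun hfg i
      exact Fin.mk.inj_iff.1 h4
    refine (Nat.card_le_card_of_injective _ h3).trans (le_of_eq ?_)
    rw [Nat.card_eq_fintype_card, Fintype.card_fun, Fintype.card_fin]
  refine hcard.trans ?_
  rw [← mul_pow]
  refine Nat.pow_le_pow_left ?_ _
  rw [hd, hm]
  have h5 : Fintype.card M * (s * e) = Fintype.card M * e * s := by ring
  rw [h5, add_mul, one_mul]
  omega

end Pool.Agent.H45.SU
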