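import Pool.Agent.H45.SU.UP
import Pool.Agent.H45.SU.UC
import Pool.Agent.H47.SP.CLS
import Pool.Agent.H47.SP.RNC

/-! # [SU MAIN] A polynomial bound in every grid, outside a set of codimension `⌈n/2⌉`

The exceptional polynomials `F` are reducible over `ℚ` (`ur`), or have a leading form `c x^n` (`uz`),
a proper power (`up`), an irreducible leading form with a real flex at infinity (`uf`), or are at
most `39 n^3` for given terms of degree `≥ n - 3` (`um`); the remaining ones satisfy Runge's bound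
(`run_split`). All counts are uniform in the sets of coefficients. -/

set_option autoImplicit false

namespace Pool.Agent.H45.SU

open Finset Polynomial Pool.Agent.H72.ES Pool.Agent.H47.SP

theorem nn_ge (n : ℕ) (hn : 5 ≤ n) : 4 * n - 2 ≤ NN n - (n + 1) / 2 ∧ n + 1 ≤ NN n := by
  have h1 := nn_two n
  obtain ⟨k, rfl⟩ : ∃ k, n = k + 5 := ⟨n - 5, by omega⟩
  have h2 : 2 * NN (k + 5) = k * k + 13 * k + 42 := by rw [h1]; ring
  constructor
  · have h3 : 2 * (4 * (k + 5) - 2) + (k + 6) ≤ 2 * NN (k + 5) := by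
      rw [h2]
      have := Nat.zero_le (k * k)
      rcases Nat.eq_zero_or_pos k with h | h
      · subst h
        norm_num
      · omega
    omega
  · omega

theorem size_fin (n : ℕ) (hn : 5 ≤ n) : ∃ E K : ℕ, ∀ (s : ℕ), 1 ≤ s →
    ∀ (A : Mon n → Finset ℤ), (∀ m, (A m).card ≤ s) → ∀ (S : Finset MP),
    (∀ F ∈ S, InA A F) → (∀ F ∈ S, Bad E F) →
    S.card ≤ K * s ^ (NN n - (n + 1) / 2) := by
  classical
  obtain ⟨K0, hK0⟩ := run_split n
  obtain ⟨C1, hC1⟩ := ur n (by omega)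
  obtain ⟨C2, hC2⟩ := up n (by omega)
  obtain ⟨g1, g2⟩ := nn_ge n hn
  set E := max K0 (5300000 * n ^ 5) with hE
  refine ⟨E, 1 + (C1 + (C2 + (1 + 39 * n ^ 3))), fun s hs A hA S hS hbad => ?_⟩
  set D := s ^ (NN n - (n + 1) / 2) with hD
  have hpw : ∀ e, e ≤ NN n - (n + 1) / 2 → s ^ e ≤ D := fun e he =>
    Nat.pow_le_pow_right hs he
  set S0 := S.filter fun F => (ld n F).natDegree = 0 with hS0
  set S1 := S.filter fun F => ld n F ≠ 0 ∧ ¬ IrrQ F with hS1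
  set S2 := S.filter fun F => (ld n F).natDegree = n ∧ Pow (ld n F) with hS2
  set S3 := S.filter fun F => (ld n F).natDegree = n ∧
    Irreducible ((ld n F).map (Int.castRingHom ℚ)) ∧
    ∃ θ : ℝ, aeval θ (ld n F) = 0 ∧ aeval θ (flexP n (arrM F)) = 0 with hS3
  set S4 := S.filter fun F => (ld n F).natDegree = n ∧
    Irreducible ((ld n F).map (Int.castRingHom ℚ)) ∧
    (∀ θ : ℝ, aeval θ (ld n F) = 0 → aeval θ (flexP n (arrM F)) ≠ 0) ∧
      Bad (5300000 * n ^ 5) F with hS4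
  have hsub : S ⊆ S0 ∪ S1 ∪ S2 ∪ S3 ∪ S4 := by
    intro F hF
    simp only [mem_union, hS0, hS1, hS2, hS3, hS4, mem_filter]
    rcases cls (by omega : 1 ≤ n) (ld n F) (ld_deg F) with h | h | ⟨h, h' | h'⟩
    · exact Or.inl (Or.inl (Or.inl (Or.inl ⟨hF, h⟩)))
    · by_cases h0 : (ld n F).natDegree = 0
      · exact Or.inl (Or.inl (Or.inl (Or.inl ⟨hF, h0⟩)))
      have h0' : ld n F ≠ 0 := by
        intro h1
        exact h0 (by rw [h1, natDegree_zero])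
      by_cases h1 : IrrQ F
      · exfalso
        obtain ⟨H, hH, hc, P, hP, hbig⟩ := hbad F hF
        have h2 := hK0 H F hH ⟨(hS F hF).1, hc⟩ h1 h P.1 P.2 hP
        have h3 : (H : ℤ) ^ K0 ≤ (H : ℤ) ^ E :=
          pow_le_pow_right₀ (by exact_mod_cast (by omega : 1 ≤ H)) (le_max_left _ _)
        exact absurd (hbig.trans_le (h2.trans h3)) (lt_irrefl _)
      · exact Or.inl (Or.inl (Or.inl (Or.inr ⟨hF, h0', h1⟩)))
    · by_cases h1 : ∃ θ : ℝ, aeval θ (ld n F) = 0 ∧ aeval θ (flexP n (arrM F)) = 0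
      · exact Or.inl (Or.inr ⟨hF, h, h', h1⟩)
      · push Not at h1
        exact Or.inr ⟨hF, h, h', h1, (hbad F hF).mono (le_max_right _ _)⟩
    · exact Or.inl (Or.inl (Or.inr ⟨hF, h, h'⟩))
  have c0 : S0.card ≤ D := (uz s A hA S0 (fun F hF => hS F (mem_filter.1 hF).1)
    fun F hF => (mem_filter.1 hF).2).trans (hpw _ (by omega))
  have c1 : S1.card ≤ C1 * D := (hC1 s hs A hA S1 (fun F hF => hS F (mem_filter.1 hF).1)
    fun F hF => (mem_filter.1 hF).2).trans (Nat.mul_le_mul_left _ (hpw _ (by omega)))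
  have c2 : S2.card ≤ C2 * D := hC2 s hs A hA S2 (fun F hF => hS F (mem_filter.1 hF).1)
    fun F hF => (mem_filter.1 hF).2
  have c3 : S3.card ≤ D := (uf (by omega) s A hA S3 (fun F hF => hS F (mem_filter.1 hF).1)
    fun F hF => (mem_filter.1 hF).2).trans (hpw _ (by omega))
  have c4 : S4.card ≤ 39 * n ^ 3 * D :=
    (um (by omega) s hs A hA S4 (fun F hF => hS F (mem_filter.1 hF).1)
      fun F hF => (mem_filter.1 hF).2).trans (Nat.mul_le_mul_left _ (hpw _ g1))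
  have h5 : S.card ≤ S0.card + S1.card + S2.card + S3.card + S4.card := by
    refine (card_le_card hsub).trans ?_
    refine (card_union_le _ _).trans (Nat.add_le_add_right ?_ _)
    refine (card_union_le _ _).trans (Nat.add_le_add_right ?_ _)
    refine (card_union_le _ _).trans (Nat.add_le_add_right ?_ _)
    exact card_union_le _ _
  calc S.card ≤ S0.card + S1.card + S2.card + S3.card + S4.card := h5
    _ ≤ D + C1 * D + C2 * D + D + 39 * n ^ 3 * D := by gcongr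
    _ = (1 + (C1 + (C2 + (1 + 39 * n ^ 3)))) * D := by ring

/-- the form for finite sets of polynomials, arrays of coefficient sets -/
theorem size_grid (n : ℕ) (hn : 5 ≤ n) : ∃ E C : ℕ, ∀ (A : ℕ → ℕ → Finset ℤ) (s : ℕ),
    (∀ i j, (A i j).card ≤ s) → ∀ S : Finset (MvPolynomial (Fin 2) ℤ),
    (∀ F ∈ S, F.totalDegree ≤ n ∧ (∀ i j, i + j ≤ n → arrM F i j ∈ A i j) ∧
      ∃ H : ℕ, 2 ≤ H ∧ (∀ m, |F.coeff m| ≤ (H : ℤ)) ∧ ∃ x y : ℤ,
        (H : ℤ) ^ E < max |x| |y| ∧ MvPolynomial.eval ![x, y] F = 0) →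
    S.card ≤ C * s ^ ((n + 1) * (n + 2) / 2 - (n + 1) / 2) := by
  classical
  obtain ⟨E, K, h⟩ := size_fin n hn
  refine ⟨E, K, fun A s hA S hS => ?_⟩
  have hmem : ∀ F ∈ S, InA (fun m : Mon n => A ((m.1 : ℕ) - (m.2 : ℕ)) (m.2 : ℕ)) F := by
    intro F hF
    obtain ⟨h1, h2, -⟩ := hS F hF
    refine ⟨h1, ?_⟩
    rw [Fintype.mem_piFinset]
    intro m
    have h3 := m.1.2
    have h4 := m.2.2
    exact h2 _ _ (by omega)
  rcases Nat.eq_zero_or_pos s with hs | hs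
  · have h1 : S = ∅ := by
      rw [eq_empty_iff_forall_notMem]
      intro F hF
      have h2 := (hS F hF).2.1 0 0 (by omega)
      have h3 := hA 0 0
      rw [hs, Nat.le_zero, card_eq_zero] at h3
      rw [h3] at h2
      exact notMem_empty _ h2
    rw [h1, card_empty]
    exact Nat.zero_le _
  · refine h s hs _ (fun m => hA _ _) S hmem ?_
    intro F hF
    obtain ⟨H, hH, hc, x, y, hbig, h0⟩ := (hS F hF).2.2
    exact ⟨H, hH, hc, (x, y), h0, hbig⟩

/-- **The theorem.** For `n ≥ 5` there are `E, K` such that for all finite sets `A_ij` of at most `s`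
integers: of the polynomials `F = ∑ a_ij x^i y^j` of degree `≤ n` with `a_ij ∈ A_ij` all but
`K s^(N-⌈n/2⌉)` have all their integer zeros in `max(|x|,|y|) ≤ H^E`, for every bound `H ≥ 2` of
the coefficients of `F`; `N = (n+1)(n+2)/2`. -/
theorem size_sets (n : ℕ) (hn : 5 ≤ n) : ∃ E K : ℕ, ∀ (s : ℕ) (A : (Fin 2 →₀ ℕ) → Finset ℤ),
    (∀ m, (A m).card ≤ s) →
    {F : MvPolynomial (Fin 2) ℤ | F.totalDegree ≤ n ∧ (∀ m, m.degree ≤ n → F.coeff m ∈ A m) ∧
      ∃ H : ℕ, 2 ≤ H ∧ (∀ m, |F.coeff m| ≤ (H : ℤ)) ∧ ∃ P : ℤ × ℤ,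
        MvPolynomial.eval ![P.1, P.2] F = 0 ∧ (H : ℤ) ^ E < max |P.1| |P.2|}.ncard ≤
      K * s ^ ((n + 1) * (n + 2) / 2 - (n + 1) / 2) := by
  classical
  obtain ⟨E, K, h⟩ := size_fin n hn
  refine ⟨E, K, fun s A hA => ?_⟩
  set B := {F : MvPolynomial (Fin 2) ℤ | F.totalDegree ≤ n ∧
      (∀ m, m.degree ≤ n → F.coeff m ∈ A m) ∧
      ∃ H : ℕ, 2 ≤ H ∧ (∀ m, |F.coeff m| ≤ (H : ℤ)) ∧ ∃ P : ℤ × ℤ,
        MvPolynomial.eval ![P.1, P.2] F = 0 ∧ (H : ℤ) ^ E < max |P.1| |P.2|} with hB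
  by_cases hfin : B.Finite
  swap
  · rw [Set.Infinite.ncard hfin]
    exact Nat.zero_le _
  rw [Set.ncard_eq_toFinset_card _ hfin]
  have hmem : ∀ F ∈ hfin.toFinset, InA (fun m : Mon n =>
      A (ex ((m.1 : ℕ) - (m.2 : ℕ)) (m.2 : ℕ))) F := by
    intro F hF
    obtain ⟨h1, h2, -⟩ := hfin.mem_toFinset.1 hF
    refine ⟨h1, ?_⟩
    rw [Fintype.mem_piFinset]
    intro m
    refine h2 _ ?_
    rw [ex_deg, ex_zero, ex_one]
    have h3 := m.1.2
    have h4 := m.2.2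
    omega
  rcases Nat.eq_zero_or_pos s with hs | hs
  · have h1 : hfin.toFinset = ∅ := by
      rw [eq_empty_iff_forall_notMem]
      intro F hF
      have h2 := Fintype.mem_piFinset.1 (hmem F hF).2 (mo 0 0 (Nat.zero_le n) : Mon n)
      have h3 := hA (ex (((mo 0 0 (Nat.zero_le n) : Mon n).1 : ℕ) -
        ((mo 0 0 (Nat.zero_le n) : Mon n).2 : ℕ)) ((mo 0 0 (Nat.zero_le n) : Mon n).2 : ℕ))
      rw [hs, Nat.le_zero, card_eq_zero] at h3
      simp only [h3] at h2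
      exact notMem_empty _ h2
    rw [h1, card_empty]
    exact Nat.zero_le _
  · refine h s hs (fun m : Mon n => A (ex ((m.1 : ℕ) - (m.2 : ℕ)) (m.2 : ℕ)))
      (fun m => hA _) hfin.toFinset hmem ?_
    intro F hF
    exact (hfin.mem_toFinset.1 hF).2.2

/-- the same for boxes with arbitrary centre -/
theorem size_any (n : ℕ) (hn : 5 ≤ n) : ∃ E K : ℕ, ∀ F₀ : MvPolynomial (Fin 2) ℤ,
    F₀.totalDegree ≤ n → ∀ L : ℕ,
    {G : MvPolynomial (Fin 2) ℤ | G.totalDegree ≤ n ∧ (∀ m, 0 ≤ G.coeff m ∧ G.coeff m ≤ L) ∧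
      ∃ H : ℕ, 2 ≤ H ∧ (∀ m, |(F₀ + G).coeff m| ≤ (H : ℤ)) ∧ ∃ P : ℤ × ℤ,
        MvPolynomial.eval ![P.1, P.2] (F₀ + G) = 0 ∧ (H : ℤ) ^ E < max |P.1| |P.2|}.ncard ≤
      K * (L + 1) ^ ((n + 1) * (n + 2) / 2 - (n + 1) / 2) := by
  classical
  obtain ⟨E, K, h⟩ := size_sets n hn
  refine ⟨E, K, fun F₀ hF₀ L => ?_⟩
  have h1 := h (L + 1) (fun m => Finset.Icc (F₀.coeff m) (F₀.coeff m + L)) (fun m => by
    rw [Int.card_Icc]
    omega)
  refine le_trans ?_ h1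
  set B := {G : MvPolynomial (Fin 2) ℤ | G.totalDegree ≤ n ∧
      (∀ m, 0 ≤ G.coeff m ∧ G.coeff m ≤ L) ∧
      ∃ H : ℕ, 2 ≤ H ∧ (∀ m, |(F₀ + G).coeff m| ≤ (H : ℤ)) ∧ ∃ P : ℤ × ℤ,
        MvPolynomial.eval ![P.1, P.2] (F₀ + G) = 0 ∧ (H : ℤ) ^ E < max |P.1| |P.2|} with hB
  have hinj : Set.InjOn (fun G => F₀ + G) B := fun G _ G' _ hgg => add_left_cancel hgg
  rw [← hinj.ncard_image]
  refine Set.ncard_le_ncard ?_ ?_
  · rintro _ ⟨G, hG, rfl⟩
    refine ⟨(MvPolynomial.totalDegree_add _ _).trans (max_le hF₀ hG.1), fun m _ => ?_, hG.2.2⟩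
    have h2 := hG.2.1 m
    have h3 : ((fun G => F₀ + G) G).coeff m = F₀.coeff m + G.coeff m :=
      MvPolynomial.coeff_add _ _ _
    rw [h3, mem_Icc]
    constructor <;> linarith [h2.1, h2.2]
  · refine Set.Finite.subset (s := (vec n) ⁻¹' (Fintype.piFinset fun m : Mon n =>
      Finset.Icc (F₀.coeff (ex ((m.1 : ℕ) - (m.2 : ℕ)) (m.2 : ℕ)))
        (F₀.coeff (ex ((m.1 : ℕ) - (m.2 : ℕ)) (m.2 : ℕ)) + L) : Set (Mon n → ℤ)) ∩
        {F | F.totalDegree ≤ n}) ?_ ?_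
    · refine Set.Finite.of_finite_image (f := vec n) ?_ ?_
      · refine (Finset.finite_toSet (Fintype.piFinset fun m : Mon n =>
          Finset.Icc (F₀.coeff (ex ((m.1 : ℕ) - (m.2 : ℕ)) (m.2 : ℕ)))
            (F₀.coeff (ex ((m.1 : ℕ) - (m.2 : ℕ)) (m.2 : ℕ)) + L))).subset ?_
        rintro _ ⟨F, hF, rfl⟩
        exact hF.1
      · intro F hF G hG hFG
        exact vec_inj hF.2 hG.2 hFG
    · intro F hF
      refine ⟨?_, hF.1⟩
      rw [Set.mem_preimage, mem_coe, Fintype.mem_piFinset]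
      intro m
      refine hF.2.1 _ ?_
      rw [ex_deg, ex_zero, ex_one]
      have h3 := m.1.2
      have h4 := m.2.2
      omega

end Pool.Agent.H45.SU
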