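import Pool.Agent.H45.SU.UR

/-! # [SU UP] Leading forms `a p^j`, `j ≥ 2`: codimension `⌈n/2⌉` in every grid -/

set_option autoImplicit false

namespace Pool.Agent.H45.SU

open Finset Polynomial Pool.Agent.H72.ES Pool.Agent.H47.SP

/-- indices of the terms of lower degree -/
abbrev Low (n : ℕ) : Type := {m : Mon n // (m.1 : ℕ) < n}

theorem card_low (n : ℕ) : Fintype.card (Low n) + (n + 1) ≤ NN n := by
  classical
  rw [← card_mon n]
  have h : Function.Injective (Sum.elim (fun m : Low n => m.1)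
      (fun j : Fin (n + 1) => (⟨Fin.last n, j⟩ : Mon n))) := by
    rintro (a | a) (b | b) hab
    · simp only [Sum.elim_inl] at hab
      rw [Subtype.ext hab]
    · simp only [Sum.elim_inl, Sum.elim_inr] at hab
      have h1 := a.2
      rw [hab] at h1
      exact absurd h1 (lt_irrefl _)
    · simp only [Sum.elim_inl, Sum.elim_inr] at hab
      have h1 := b.2
      rw [← hab] at h1
      exact absurd h1 (lt_irrefl _)
    · simp only [Sum.elim_inr] at hab
      have h2 : a = b := by simpa using hab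
      rw [h2]
  have h1 := Fintype.card_le_of_injective _ h
  rwa [Fintype.card_sum, Fintype.card_fin] at h1

section qp

variable {R : Type} [CommRing R]

/-- monic polynomial of degree `r` -/
noncomputable def qp (r : ℕ) (p : Fin r → R) : R[X] := X ^ r + ∑ i : Fin r, C (p i) * X ^ (i : ℕ)

theorem qp_map {S : Type} [CommRing S] (f : R →+* S) (r : ℕ) (p : Fin r → R) :
    (qp r p).map f = qp r fun i => f (p i) := by
  unfold qp
  simp only [Polynomial.map_add, Polynomial.map_pow, Polynomial.map_X, Polynomial.map_sum,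
    Polynomial.map_mul, Polynomial.map_C]

end qp

theorem qp_eq (p : ℤ[X]) (hp : p ≠ 0) : C (p.leadingCoeff : ℚ) *
    qp p.natDegree (fun i : Fin p.natDegree => (p.coeff i : ℚ) / (p.leadingCoeff : ℚ)) =
    p.map (Int.castRingHom ℚ) := by
  have hu : (p.leadingCoeff : ℚ) ≠ 0 := by
    exact_mod_cast leadingCoeff_ne_zero.2 hp
  have h1 : p.map (Int.castRingHom ℚ) =
      ∑ i ∈ range (p.natDegree + 1), C ((p.coeff i : ℤ) : ℚ) * X ^ i := by
    conv_lhs => rw [p.as_sum_range_C_mul_X_pow]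
    rw [Polynomial.map_sum]
    refine sum_congr rfl fun i _ => ?_
    simp
  rw [h1, sum_range_succ, qp, mul_add, add_comm, mul_sum]
  congr 1
  rw [Finset.sum_range]
  refine sum_congr rfl fun i _ => ?_
  rw [← mul_assoc, ← C_mul]
  congr 2
  field_simp

theorem pow_one_count (n j r : ℕ) : ∃ K : ℕ, ∀ (s : ℕ), 1 ≤ s → ∀ (A : Mon n → Finset ℤ),
    (∀ m, (A m).card ≤ s) → ∀ (S : Finset MP),
    (∀ F ∈ S, InA A F) → (∀ F ∈ S, ∃ (a : ℤ) (p : ℤ[X]), p ≠ 0 ∧ p.natDegree = r ∧
      ld n F = C a * p ^ j) → S.card ≤ K * s ^ (NN n - (n + 1) + (r + 1)) := by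
  classical
  set G : (MvPolynomial (Low n ⊕ Option (Fin r)) ℚ)[X] :=
    C (MvPolynomial.X (Sum.inr none) : MvPolynomial (Low n ⊕ Option (Fin r)) ℚ) *
      (qp r fun i => (MvPolynomial.X (Sum.inr (some i)) :
        MvPolynomial (Low n ⊕ Option (Fin r)) ℚ)) ^ j with hG
  obtain ⟨K, hK⟩ := grid (fun m : Mon n => if h : (m.1 : ℕ) < n then
    (MvPolynomial.X (Sum.inl ⟨m, h⟩) : MvPolynomial (Low n ⊕ Option (Fin r)) ℚ)
    else G.coeff (m.2 : ℕ))
  refine ⟨K, fun s hs A hA S hS hP => ?_⟩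
  obtain ⟨h1, h2⟩ := card_vec hS
  have h3 : Fintype.card (Low n ⊕ Option (Fin r)) ≤ NN n - (n + 1) + (r + 1) := by
    rw [Fintype.card_sum, Fintype.card_option, Fintype.card_fin]
    have := card_low n
    omega
  rw [← h1]
  refine (hK s hs A hA _ h2 ?_).trans (Nat.mul_le_mul_left _ (Nat.pow_le_pow_right hs h3))
  intro b hb
  obtain ⟨F, hF, rfl⟩ := mem_image.1 hb
  obtain ⟨a, p, hp0, hpr, hap⟩ := hP F hF
  subst hpr
  set t : Low n ⊕ Option (Fin p.natDegree) → ℚ := Sum.elim (fun m => (vec n F m.1 : ℚ))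
    (fun o => o.elim ((a : ℚ) * (p.leadingCoeff : ℚ) ^ j)
      fun i => (p.coeff i : ℚ) / (p.leadingCoeff : ℚ)) with ht
  refine ⟨t, fun m => ?_⟩
  by_cases hm : (m.1 : ℕ) < n
  · rw [dif_pos hm, MvPolynomial.eval_X, ht, Sum.elim_inl]
  · rw [dif_neg hm]
    have h4 : G.map (MvPolynomial.eval t) = (ld n F).map (Int.castRingHom ℚ) := by
      rw [hG, Polynomial.map_mul, Polynomial.map_C, Polynomial.map_pow, qp_map, hap,
        Polynomial.map_mul, Polynomial.map_C, Polynomial.map_pow, ← qp_eq p hp0]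
      simp only [MvPolynomial.eval_X, ht, Sum.elim_inr, Option.elim_none, Option.elim_some]
      rw [mul_pow, C_mul, ← C_pow, mul_assoc]
      rfl
    have h5 := congrArg (fun q : ℚ[X] => q.coeff (m.2 : ℕ)) h4
    simp only [coeff_map] at h5
    have h6 : (m.1 : ℕ) = n := by
      have := m.1.2
      omega
    have h7 : (m.2 : ℕ) ≤ n := by
      have := m.2.2
      omega
    rw [h5, ld_coeff F _ h7]
    have h8 : vec n F m = arrM F (n - (m.2 : ℕ)) (m.2 : ℕ) := by
      unfold vec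
      have h9 : (m.1 : ℕ) - (m.2 : ℕ) = n - (m.2 : ℕ) := by omega
      exact congrArg (fun i => arrM F i (m.2 : ℕ)) h9
    rw [h8]
    rfl

/-- **UP** -/
theorem up (n : ℕ) (hn : 1 ≤ n) : ∃ K : ℕ, ∀ (s : ℕ), 1 ≤ s → ∀ (A : Mon n → Finset ℤ),
    (∀ m, (A m).card ≤ s) → ∀ (S : Finset MP),
    (∀ F ∈ S, InA A F) → (∀ F ∈ S, (ld n F).natDegree = n ∧ Pow (ld n F)) →
    S.card ≤ K * s ^ (NN n - (n + 1) / 2) := by
  classical
  choose K hK using fun jr : ℕ × ℕ => pow_one_count n jr.1 jr.2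
  refine ⟨∑ jr ∈ range (n + 1) ×ˢ range (n / 2 + 1), K jr, fun s hs A hA S hS h => ?_⟩
  have hsub : S ⊆ (range (n + 1) ×ˢ range (n / 2 + 1)).biUnion fun jr => S.filter fun F =>
      ∃ (a : ℤ) (p : ℤ[X]), p ≠ 0 ∧ p.natDegree = jr.2 ∧ ld n F = C a * p ^ jr.1 := by
    intro F hF
    obtain ⟨h1, a, p, j, hj, hap⟩ := h F hF
    have hg0 : ld n F ≠ 0 := by
      intro h2
      rw [h2, natDegree_zero] at h1
      omega
    have ha0 : a ≠ 0 := by
      rintro rfl
      exact hg0 (by rw [hap, C_0, zero_mul])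
    have hp0 : p ≠ 0 := by
      rintro rfl
      exact hg0 (by rw [hap, zero_pow (by omega), mul_zero])
    have h2 : j * p.natDegree = n := by
      rw [← h1, hap, natDegree_C_mul ha0, natDegree_pow]
    have h3 : 0 < p.natDegree := by
      rcases Nat.eq_zero_or_pos p.natDegree with h4 | h4
      · rw [h4, mul_zero] at h2
        omega
      · exact h4
    have h4 : j ≤ n := by
      rw [← h2]
      exact Nat.le_mul_of_pos_right _ h3
    have h5 : p.natDegree ≤ n / 2 := by
      rw [Nat.le_div_iff_mul_le (by norm_num), mul_comm]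
      rw [← h2]
      exact Nat.mul_le_mul_right _ hj
    rw [mem_biUnion]
    refine ⟨(j, p.natDegree), ?_, mem_filter.2 ⟨hF, a, p, hp0, rfl, hap⟩⟩
    rw [mem_product, mem_range, mem_range]
    exact ⟨by simp only; omega, by simp only; omega⟩
  refine (card_le_card hsub).trans (card_biUnion_le.trans ?_)
  rw [sum_mul]
  refine sum_le_sum fun jr hjr => ?_
  have h6 := (mem_product.1 hjr).2
  rw [mem_range] at h6
  refine (hK jr s hs A hA _ (fun F hF => hS F (mem_filter.1 hF).1)
    (fun F hF => (mem_filter.1 hF).2)).trans (Nat.mul_le_mul_left _ ?_)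
  refine Nat.pow_le_pow_right hs ?_
  have h7 := card_low n
  omega

end Pool.Agent.H45.SU
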