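import Pool.Agent.H45.SU.GL
import Pool.Agent.H47.SP.Defs

/-! # [SU UR] Polynomials which are reducible over `ℚ`: codimension `n - 2` in every grid -/

set_option autoImplicit false

namespace Pool.Agent.H45.SU

open Finset Pool.Agent.H72.ES Pool.Agent.H47.SP

/-- degree at most `n`, the coefficient number `m` is in the finite set `A m` -/
def InA {n : ℕ} (A : Mon n → Finset ℤ) (F : MP) : Prop :=
  F.totalDegree ≤ n ∧ vec n F ∈ Fintype.piFinset A

section gp

variable {R : Type} [CommRing R]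

/-- the polynomial with the given coefficients -/
noncomputable def gp {k : ℕ} (p : Mon k → R) : MvPolynomial (Fin 2) R :=
  ∑ u : Mon k, MvPolynomial.monomial (ex ((u.1 : ℕ) - (u.2 : ℕ)) (u.2 : ℕ)) (p u)

theorem gp_map {S : Type} [CommRing S] (f : R →+* S) {k : ℕ} (p : Mon k → R) :
    MvPolynomial.map f (gp p) = gp fun u => f (p u) := by
  unfold gp
  rw [map_sum]
  refine sum_congr rfl fun u _ => ?_
  rw [MvPolynomial.map_monomial]

theorem ex_eq {i j i' j' : ℕ} (h : ex i j = ex i' j') : i = i' ∧ j = j' := by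
  constructor
  · rw [← ex_zero i j, h, ex_zero]
  · rw [← ex_one i j, h, ex_one]

theorem gp_coeff {k : ℕ} (p : Mon k → R) (i j : ℕ) (h : i + j ≤ k) :
    (gp p).coeff (ex i j) = p (mo i j h) := by
  classical
  unfold gp
  rw [MvPolynomial.coeff_sum, sum_eq_single (mo i j h)]
  · have h1 : ((mo i j h : Mon k).1 : ℕ) - ((mo i j h : Mon k).2 : ℕ) = i := by
      change i + j - j = i
      omega
    have h2 : ((mo i j h : Mon k).2 : ℕ) = j := rfl
    rw [h1, h2, MvPolynomial.coeff_monomial, if_pos rfl]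
  · intro u _ hu
    rw [MvPolynomial.coeff_monomial, if_neg]
    intro h1
    obtain ⟨h2, h3⟩ := ex_eq h1
    obtain ⟨h4, h5⟩ := mo_eq u
    apply hu
    rw [← h5]
    congr 1
  · intro h1
    exact absurd (mem_univ _) h1

theorem gp_coeff_big {k : ℕ} (p : Mon k → R) (i j : ℕ) (h : k < i + j) :
    (gp p).coeff (ex i j) = 0 := by
  classical
  unfold gp
  rw [MvPolynomial.coeff_sum]
  refine sum_eq_zero fun u _ => ?_
  rw [MvPolynomial.coeff_monomial, if_neg]
  intro h1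
  obtain ⟨h2, h3⟩ := ex_eq h1
  have h4 := u.1.2
  have h5 := u.2.2
  omega

theorem eq_gp {k : ℕ} (P : MvPolynomial (Fin 2) R) (h : P.totalDegree ≤ k) :
    gp (fun u : Mon k => P.coeff (ex ((u.1 : ℕ) - (u.2 : ℕ)) (u.2 : ℕ))) = P := by
  ext m
  rw [← ex_eta m]
  by_cases h1 : m 0 + m 1 ≤ k
  · rw [gp_coeff _ _ _ h1]
    congr 2
    change m 0 + m 1 - m 1 = m 0
    omega
  · rw [gp_coeff_big _ _ _ (by omega)]
    symm
    refine MvPolynomial.coeff_eq_zero_of_totalDegree_lt ?_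
    refine lt_of_le_of_lt h ?_
    have h2 : (ex (m 0) (m 1)).degree = m 0 + m 1 := by
      rw [ex_deg, ex_zero, ex_one]
    rw [← Finsupp.degree_apply, h2]
    omega

end gp

/-- a product with factors of degrees at most `k`, `l`, over `ℚ` -/
def Prd (k l : ℕ) (F : MP) : Prop := ∃ P Q : MvPolynomial (Fin 2) ℚ, P.totalDegree ≤ k ∧
  Q.totalDegree ≤ l ∧ MvPolynomial.map (Int.castRingHom ℚ) F = P * Q

theorem card_vec {n : ℕ} {A : Mon n → Finset ℤ} {S : Finset MP} (hS : ∀ F ∈ S, InA A F) :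
    (S.image (vec n)).card = S.card ∧ S.image (vec n) ⊆ Fintype.piFinset A := by
  constructor
  · refine card_image_of_injOn fun F hF G hG h => ?_
    exact vec_inj (hS F hF).1 (hS G hG).1 h
  · intro a ha
    obtain ⟨F, hF, rfl⟩ := mem_image.1 ha
    exact (hS F hF).2

theorem prd_count (n k l : ℕ) : ∃ C : ℕ, ∀ (s : ℕ), 1 ≤ s → ∀ (A : Mon n → Finset ℤ),
    (∀ m, (A m).card ≤ s) → ∀ (S : Finset MP),
    (∀ F ∈ S, InA A F) → (∀ F ∈ S, Prd k l F) → S.card ≤ C * s ^ (NN k + NN l) := by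
  classical
  set G : MvPolynomial (Fin 2) (MvPolynomial (Mon k ⊕ Mon l) ℚ) :=
    gp (fun u : Mon k => MvPolynomial.X (Sum.inl u)) *
    gp (fun u : Mon l => MvPolynomial.X (Sum.inr u)) with hG
  obtain ⟨C, hC⟩ := grid (fun m : Mon n => G.coeff (ex ((m.1 : ℕ) - (m.2 : ℕ)) (m.2 : ℕ)))
  refine ⟨C, fun s hs A hA S hS hP => ?_⟩
  obtain ⟨h1, h2⟩ := card_vec hS
  have h3 : Fintype.card (Mon k ⊕ Mon l) = NN k + NN l := by
    rw [Fintype.card_sum, card_mon, card_mon]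
  rw [← h1, ← h3]
  refine hC s hs A hA _ h2 ?_
  intro a ha
  obtain ⟨F, hF, rfl⟩ := mem_image.1 ha
  obtain ⟨P, Q, hPd, hQd, hPQ⟩ := hP F hF
  set t : Mon k ⊕ Mon l → ℚ := Sum.elim
    (fun u => P.coeff (ex ((u.1 : ℕ) - (u.2 : ℕ)) (u.2 : ℕ)))
    (fun u => Q.coeff (ex ((u.1 : ℕ) - (u.2 : ℕ)) (u.2 : ℕ))) with ht
  refine ⟨t, fun m => ?_⟩
  have h4 : MvPolynomial.map (MvPolynomial.eval t) G = P * Q := by
    rw [hG, map_mul, gp_map, gp_map]
    simp only [MvPolynomial.eval_X, ht, Sum.elim_inl, Sum.elim_inr]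
    rw [eq_gp P hPd, eq_gp Q hQd]
  rw [← MvPolynomial.coeff_map, h4, ← hPQ, MvPolynomial.coeff_map]
  rfl

theorem nn_two (k : ℕ) : 2 * NN k = (k + 1) * (k + 2) := by
  unfold NN
  exact Nat.mul_div_cancel' (Nat.even_mul_succ_self (k + 1)).two_dvd

theorem nn_split {k l : ℕ} (hk : 1 ≤ k) (hl : 1 ≤ l) :
    NN k + NN l + (k + l - 2) ≤ NN (k + l) := by
  have h1 := nn_two k
  have h2 := nn_two l
  have h3 := nn_two (k + l)
  obtain ⟨a, rfl⟩ : ∃ a, k = a + 1 := ⟨k - 1, by omega⟩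
  obtain ⟨b, rfl⟩ : ∃ b, l = b + 1 := ⟨l - 1, by omega⟩
  have h4 : a + 1 + (b + 1) - 2 = a + b := by omega
  rw [h4]
  nlinarith [Nat.zero_le (a * b)]

theorem tdeg_of_ld {n : ℕ} {F : MP} (hF : F.totalDegree ≤ n) (h : ld n F ≠ 0) :
    (MvPolynomial.map (Int.castRingHom ℚ) F).totalDegree = n := by
  have h0 : (MvPolynomial.map (Int.castRingHom ℚ) F).totalDegree ≤ F.totalDegree :=
    Finset.sup_mono (MvPolynomial.support_map_subset _ _)
  refine le_antisymm (h0.trans hF) ?_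
  have h1 : ∃ j, (ld n F).coeff j ≠ 0 := by
    by_contra hcon
    push Not at hcon
    exact h (Polynomial.ext fun j => by rw [hcon j, Polynomial.coeff_zero])
  obtain ⟨j, hj⟩ := h1
  have hjn : j ≤ n := by
    by_contra hcon
    exact hj (ld_coeff_big F j (by omega))
  rw [ld_coeff F j hjn] at hj
  have h2 : ex (n - j) j ∈ (MvPolynomial.map (Int.castRingHom ℚ) F).support := by
    rw [MvPolynomial.mem_support_iff, MvPolynomial.coeff_map]
    intro h3
    have h5 : ((arrM F (n - j) j : ℤ) : ℚ) = 0 := h3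
    exact hj (by exact_mod_cast h5)
  have h3 := MvPolynomial.le_totalDegree h2
  have h4 : (ex (n - j) j).degree = n := by
    rw [ex_deg, ex_zero, ex_one]
    omega
  have h5 : (ex (n - j) j).sum (fun _ e => e) = n := h4
  rw [h5] at h3
  exact h3

theorem prd_of_red {n : ℕ} (hn : 1 ≤ n) {F : MP} (hF : F.totalDegree ≤ n) (h : ld n F ≠ 0)
    (hr : ¬ IrrQ F) : ∃ k l, 1 ≤ k ∧ 1 ≤ l ∧ k + l = n ∧ Prd k l F := by
  set F' := MvPolynomial.map (Int.castRingHom ℚ) F with hF'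
  have hd : F'.totalDegree = n := tdeg_of_ld hF h
  have h0 : F' ≠ 0 := by
    intro h1
    rw [h1, MvPolynomial.totalDegree_zero] at hd
    omega
  have hun : ∀ P : MvPolynomial (Fin 2) ℚ, P ≠ 0 → P.totalDegree = 0 → IsUnit P := by
    intro P hP hP0
    rw [MvPolynomial.totalDegree_eq_zero_iff_eq_C] at hP0
    rw [hP0]
    refine IsUnit.map MvPolynomial.C (isUnit_iff_ne_zero.2 ?_)
    intro h1
    rw [hP0, h1, map_zero] at hP
    exact hP rfl
  have hnu : ¬ IsUnit F' := by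
    intro h1
    obtain ⟨u, hu⟩ := h1
    have h2 : F' * (↑u⁻¹ : MvPolynomial (Fin 2) ℚ) = 1 := by rw [← hu, Units.mul_inv]
    have h3 : (↑u⁻¹ : MvPolynomial (Fin 2) ℚ) ≠ 0 := Units.ne_zero _
    have h4 := MvPolynomial.totalDegree_mul_of_isDomain h0 h3
    rw [h2, MvPolynomial.totalDegree_one, hd] at h4
    omega
  unfold IrrQ at hr
  rw [← hF', irreducible_iff] at hr
  push Not at hr
  obtain ⟨P, Q, hPQ, hP, hQ⟩ := hr hnu
  have hP0 : P ≠ 0 := by
    rintro rfl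
    exact h0 (by rw [hPQ, zero_mul])
  have hQ0 : Q ≠ 0 := by
    rintro rfl
    exact h0 (by rw [hPQ, mul_zero])
  have hPQd := MvPolynomial.totalDegree_mul_of_isDomain hP0 hQ0
  rw [← hPQ, hd] at hPQd
  refine ⟨P.totalDegree, Q.totalDegree, ?_, ?_, hPQd.symm, P, Q, le_rfl, le_rfl, hPQ⟩
  · by_contra hcon
    exact hP (hun P hP0 (by omega))
  · by_contra hcon
    exact hQ (hun Q hQ0 (by omega))

/-- **UR** -/
theorem ur (n : ℕ) (hn : 1 ≤ n) : ∃ C : ℕ, ∀ (s : ℕ), 1 ≤ s → ∀ (A : Mon n → Finset ℤ),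
    (∀ m, (A m).card ≤ s) → ∀ (S : Finset MP),
    (∀ F ∈ S, InA A F) → (∀ F ∈ S, ld n F ≠ 0 ∧ ¬ IrrQ F) →
    S.card ≤ C * s ^ (NN n - (n - 2)) := by
  classical
  choose C hC using fun k : ℕ => prd_count n k (n - k)
  refine ⟨∑ k ∈ Icc 1 (n - 1), C k, fun s hs A hA S hS h => ?_⟩
  have hsub : S ⊆ (Icc 1 (n - 1)).biUnion fun k => S.filter fun F => Prd k (n - k) F := by
    intro F hF
    obtain ⟨k, l, hk, hl, hkl, hP⟩ := prd_of_red hn (hS F hF).1 (h F hF).1 (h F hF).2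
    rw [mem_biUnion]
    refine ⟨k, mem_Icc.2 ⟨hk, by omega⟩, mem_filter.2 ⟨hF, ?_⟩⟩
    have h1 : n - k = l := by omega
    rw [h1]
    exact hP
  refine (card_le_card hsub).trans (card_biUnion_le.trans ?_)
  rw [sum_mul]
  refine sum_le_sum fun k hk => ?_
  have hk' := mem_Icc.1 hk
  refine (hC k s hs A hA _ (fun F hF => hS F (mem_filter.1 hF).1)
    (fun F hF => (mem_filter.1 hF).2)).trans (Nat.mul_le_mul_left _ ?_)
  refine Nat.pow_le_pow_right hs ?_
  have h1 := nn_split (k := k) (l := n - k) (by omega) (by omega)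
  have h2 : k + (n - k) = n := by omega
  rw [h2] at h1
  omega

end Pool.Agent.H45.SU
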